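import Pool.Agent.Helper69.BQ.Cert

/-!
# Project BQ, piece M1: bit operations
-/

namespace Pool.Agent.Helper7.BQ

open Pool.Agent.Helper69.BQ Pool.Agent.Helper69.BQ.Cert

lemma bitz_zero (i : ℕ) : bitz 0 i = 0 := by simp [bitz]

lemma bitz_xor (a b i : ℕ) : bitz (a ^^^ b) i = bitz a i + bitz b i := by
  unfold bitz
  rw [Nat.testBit_xor]
  cases a.testBit i <;> cases b.testBit i <;> simp <;> decide

lemma bitz_and (a b i : ℕ) : bitz (a &&& b) i = bitz a i * bitz b i := by
  unfold bitz
  rw [Nat.testBit_and]
  cases a.testBit i <;> cases b.testBit i <;> simp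

lemma bitz_at_zero (m : ℕ) : bitz m 0 = if m % 2 = 1 then 1 else 0 := by
  unfold bitz
  rw [Nat.testBit_zero]
  by_cases h : m % 2 = 1 <;> simp [h]

lemma bitz_at_succ (m i : ℕ) : bitz m (i + 1) = bitz (m / 2) i := by
  unfold bitz
  rw [Nat.testBit_succ]

lemma dot_zero (N : ℕ) (x : ℕ → ZMod 2) : dot N x 0 = 0 := by
  simp [dot, bitz_zero]

/-- M1. -/
lemma dot_xor (N : ℕ) (x : ℕ → ZMod 2) (a b : ℕ) : dot N x (a ^^^ b) = dot N x a + dot N x b := by
  unfold dot
  rw [← Finset.sum_add_distrib]
  refine Finset.sum_congr rfl fun i _ => ?_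
  rw [bitz_xor, add_mul]

lemma dot_ite (N : ℕ) (x : ℕ → ZMod 2) (c s : ℕ) :
    dot N x (if s % 2 = 1 then c else 0) = bitz s 0 * dot N x c := by
  rw [bitz_at_zero]
  by_cases h : s % 2 = 1 <;> simp [h, dot_zero]

/-- M2. The value of a functional on a selected `xor`. -/
lemma dot_xorSel (N : ℕ) (x : ℕ → ZMod 2) (l : List ℕ) (s : ℕ) :
    dot N x (xorSel l s) = ∑ i ∈ Finset.range l.length, bitz s i * dot N x (gt l i) := by
  induction l generalizing s with
  | nil => simp [xorSel, dot_zero]
  | cons c cs ih =>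
    rw [xorSel, dot_xor, ih, dot_ite, List.length_cons, Finset.sum_range_succ', add_comm]
    congr 1
    refine Finset.sum_congr rfl fun i _ => ?_
    rw [bitz_at_succ]
    rfl

/-- M3. The same for pairs: if all the listed conditions hold, so does every selected one. -/
lemma dot_xorSel2 (N : ℕ) (x y : ℕ → ZMod 2) (l : List (ℕ × ℕ)) (s : ℕ)
    (h : ∀ c ∈ l, dot N x c.1 + dot N y c.2 = 0) :
    dot N x (xorSel2 l s).1 + dot N y (xorSel2 l s).2 = 0 := by
  induction l generalizing s with
  | nil => simp [xorSel2, dot_zero]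
  | cons c cs ih =>
    have h1 := ih (s / 2) fun d hd => h d (List.mem_cons_of_mem _ hd)
    have h2 := h c List.mem_cons_self
    simp only [xorSel2]
    rw [dot_xor, dot_xor, dot_ite, dot_ite]
    linear_combination h1 + bitz s 0 * h2

lemma par_eq (N a : ℕ) :
    (∑ i ∈ Finset.range N, bitz a i) = if par N a then (1 : ZMod 2) else 0 := by
  induction N generalizing a with
  | zero => simp [par]
  | succ N ih =>
    rw [Finset.sum_range_succ']
    simp only [bitz_at_succ]
    rw [ih, bitz_at_zero, par]
    by_cases h : a % 2 = 1 <;> cases par N (a / 2) <;> simp [h] <;> decide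

/-- M4. The pairing of two masks. -/
lemma dot_bitz (N a b : ℕ) : dot N (bitz a) b = if par N (b &&& a) then 1 else 0 := by
  rw [← par_eq]
  unfold dot
  refine Finset.sum_congr rfl fun i _ => ?_
  rw [bitz_and]

/-- M5. Bits of `ofBits`. -/
lemma bitz_ofBits (l : List Bool) (i : ℕ) : bitz (ofBits l) i = if l.getD i false then 1 else 0 := by
  induction l generalizing i with
  | nil => simp [ofBits, bitz_zero]
  | cons b bs ih =>
    cases i with
    | zero =>
      rw [bitz_at_zero, ofBits]
      cases b
      · have : (2 * ofBits bs) % 2 = 0 := by omega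
        simp [this]
      · have : (1 + 2 * ofBits bs) % 2 = 1 := by omega
        simp [this]
    | succ i =>
      rw [bitz_at_succ, List.getD_cons_succ, ← ih]
      congr 1
      rw [ofBits]
      cases b
      · simp
      · simp only [if_true]
        omega

end Pool.Agent.Helper7.BQ
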